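import Pool.Agent.Work.MP_88b7aa_gt.D.C599.F0

/-! The class is done. -/

set_option autoImplicit false

namespace Pool.Agent.Work.MP_88b7aa_gt.D.C599

open Pool.Agent.Work.MP_88b7aa_gt.PQ
open Pool.Agent.Work.MP_88b7aa_gt.Kc

theorem g0 : CGood (KS (.ex 5) (.iv 9 0) (.iv 9 0)) H.k ⟨227718039650213, 0, 0, 0, 0, 8⟩ ⟨277214369153024, 0, 0, 4260607557632, 0, 0⟩ ⟨268693154037760, 0, 4260607557632, 0, 0, 0⟩ ⟨110852141219840, 0, -204833030144, 989310484480, 0, 0⟩ :=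
  mC_good H_ok M0.k LB.nil LC.nil

theorem g1 : CGood (KS (.ex 5) (.iv 9 0) (.iv 9 0)) H.k ⟨227718039650213, 0, 0, 0, 0, 8⟩ ⟨272953761595392, 0, 0, 8521215115264, 0, 0⟩ ⟨272953761595392, 0, 8521215115264, 0, 0, 0⟩ ⟨109657997705216, 0, -409666060288, 1978620968960, 0, 0⟩ :=
  mC_good H_ok M1.k LB.nil (LC.cons g0 LC.nil)

theorem g2 : CGood (KS (.ex 5) (.iv 9 0) (.iv 9 0)) H.k ⟨227718039650213, 0, 0, 0, 0, 8⟩ ⟨272953761595392, 0, 0, 8521215115264, 0, 0⟩ ⟨272953761595392, 0, 8521215115264, 0, 0, 0⟩ ⟨49570197274624, 0, -409666060288, 1978620968960, 0, 0⟩ :=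
  mC_good H_ok M2.k LB.nil (LC.cons g1 LC.nil)

theorem g3 : CGood (KS (.ex 5) (.iv 9 0) (.iv 9 0)) H.k ⟨227718039650213, 0, 0, 0, 0, 8⟩ ⟨272953761595392, 0, 0, 8521215115264, 0, 0⟩ ⟨272953761595392, 0, 8521215115264, 0, 0, 0⟩ ⟨0, 0, 0, 0, 0, 0⟩ :=
  mC_good H_ok M3.k LB.nil (LC.cons g2 LC.nil)

theorem done : Done (KS (.ex 5) (.iv 9 0) (.iv 9 0)) := fin (by decide +kernel) g3

end Pool.Agent.Work.MP_88b7aa_gt.D.C599
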